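import Mathlib

set_option autoImplicit false

namespace Pool.Agent.Results.MP_3c0d3c_co.CubeRoot

/-- `Δ(x)`: the absolute differences of the consecutive entries of `x`, in order. -/
def delta (x : List ℕ) : List ℕ :=
  List.zipWith (fun a b : ℕ => ((b : ℤ) - (a : ℤ)).natAbs) x x.tail

/-- `x` is a composition of `k`. -/
def IsComposition (k : ℕ) (x : List ℕ) : Prop := (∀ a ∈ x, 0 < a) ∧ x.sum = k

/-- The step from `x` to `Δ(x)` is allowed. -/
def Allowed (x : List ℕ) : Prop := 2 ≤ x.length ∧ (∀ a ∈ delta x, a ≠ 0) ∧ (delta x).Nodup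

/-- The unpermuted depth of `x` is at least `t`: the first `t` steps are allowed. -/
def DepthAtLeast (x : List ℕ) (t : ℕ) : Prop := ∀ i < t, Allowed (delta^[i] x)

/-- `d*(k)`, the maximum unpermuted depth of a composition of `k`. -/
noncomputable def dstar (k : ℕ) : ℕ := sSup {t | ∃ x, IsComposition k x ∧ DepthAtLeast x t}

theorem length_delta (x : List ℕ) : (delta x).length = x.length - 1 := by
  simp [delta]

theorem length_iterate_delta (x : List ℕ) (i : ℕ) : (delta^[i] x).length = x.length - i := by
  induction i with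
  | zero => simp
  | succ i ih => rw [Function.iterate_succ_apply', length_delta, ih]; omega

theorem length_le_sum (x : List ℕ) (h : ∀ a ∈ x, 0 < a) : x.length ≤ x.sum := by
  induction x with
  | nil => simp
  | cons a x ih =>
    have h1 := ih fun b hb => h b (List.mem_cons_of_mem _ hb)
    have h2 := h a List.mem_cons_self
    rw [List.length_cons, List.sum_cons]
    omega

theorem bddAbove (k : ℕ) : BddAbove {t | ∃ x, IsComposition k x ∧ DepthAtLeast x t} := by
  refine ⟨k, ?_⟩
  rintro t ⟨x, ⟨h1, h2⟩, h3⟩
  rcases Nat.eq_zero_or_pos t with h0 | h0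
  · omega
  · have h4 := (h3 (t - 1) (by omega)).1
    rw [length_iterate_delta] at h4
    have h5 := length_le_sum x h1
    omega

theorem delta_map_range (f : ℕ → ℕ) (m : ℕ) :
    delta ((List.range (m + 1)).map f) =
      (List.range m).map (fun j => ((f (j + 1) : ℤ) - (f j : ℤ)).natAbs) := by
  apply List.ext_getElem
  · simp [delta]
  · intro i h1 h2
    simp [delta]

/-- The array. -/
def V (N i s : ℕ) : ℕ :=
  if s % 3 = 0 then s / 3
  else if s % 3 = 1 then N + i - (s / 3 + 1) ^ 2
  else N + i - (s / 3 + 1) * (s / 3 + 2)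

theorem V0 (N i t : ℕ) : V N i (3 * t) = t := by
  unfold V
  rw [if_pos (by omega)]
  omega

theorem V1 (N i t : ℕ) : V N i (3 * t + 1) = N + i - (t + 1) ^ 2 := by
  unfold V
  rw [if_neg (by omega), if_pos (by omega), show (3 * t + 1) / 3 = t by omega]

theorem V2 (N i t : ℕ) : V N i (3 * t + 2) = N + i - (t + 1) * (t + 2) := by
  unfold V
  rw [if_neg (by omega), if_neg (by omega), show (3 * t + 2) / 3 = t by omega]

theorem cases3 (s : ℕ) : ∃ t, s = 3 * t ∨ s = 3 * t + 1 ∨ s = 3 * t + 2 := ⟨s / 3, by omega⟩

theorem mono_bound {N T t : ℕ} (hN : (T + 1) * (T + 3) ≤ N) (h : t ≤ T) :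
    (t + 1) * (t + 3) ≤ N :=
  (Nat.mul_le_mul (by omega) (by omega)).trans hN

theorem V_rec {N T s : ℕ} (i : ℕ) (hN : (T + 1) * (T + 3) ≤ N) (hs : s / 3 ≤ T) :
    ((V N i (s + 1) : ℤ) - (V N i s : ℤ)).natAbs = V N (i + 1) (s + 2) := by
  obtain ⟨t, h | h | h⟩ := cases3 s
  · subst h
    have h1 := mono_bound hN (show t ≤ T by omega)
    rw [V1, V0, V2]
    have e1 : (t + 1) * (t + 3) = t * t + 4 * t + 3 := by ring
    have e2 : (t + 1) ^ 2 = t * t + 2 * t + 1 := by ring
    have e3 : (t + 1) * (t + 2) = t * t + 3 * t + 2 := by ring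
    rw [e1] at h1
    rw [e2, e3]
    omega
  · subst h
    have h1 := mono_bound hN (show t ≤ T by omega)
    rw [V1, show 3 * t + 1 + 1 = 3 * t + 2 by ring, V2,
      show 3 * t + 1 + 2 = 3 * (t + 1) by ring, V0]
    have e1 : (t + 1) * (t + 3) = t * t + 4 * t + 3 := by ring
    have e2 : (t + 1) ^ 2 = t * t + 2 * t + 1 := by ring
    have e3 : (t + 1) * (t + 2) = t * t + 3 * t + 2 := by ring
    rw [e1] at h1
    rw [e2, e3]
    omega
  · subst h
    have h1 := mono_bound hN (show t ≤ T by omega)
    rw [show 3 * t + 2 + 1 = 3 * (t + 1) by ring, V0, V2,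
      show 3 * t + 2 + 2 = 3 * (t + 1) + 1 by ring, V1]
    have e1 : (t + 1) * (t + 3) = t * t + 4 * t + 3 := by ring
    have e2 : (t + 1 + 1) ^ 2 = t * t + 4 * t + 4 := by ring
    have e3 : (t + 1) * (t + 2) = t * t + 3 * t + 2 := by ring
    rw [e1] at h1
    rw [e2, e3]
    omega

theorem V_le {N T s i : ℕ} (hN : (T + 1) * (T + 3) ≤ N) (hs : s / 3 ≤ T) : V N i s ≤ N + i := by
  have h1 := mono_bound hN hs
  unfold V
  split_ifs
  · nlinarith
  · omega
  · omega

theorem V_pos {N T s i : ℕ} (hN : (T + 1) * (T + 3) ≤ N) (hs : s / 3 ≤ T) (h3 : 3 ≤ s) :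
    0 < V N i s := by
  have h1 := mono_bound hN hs
  have e1 : (s / 3 + 1) * (s / 3 + 3) = s / 3 * (s / 3) + 4 * (s / 3) + 3 := by ring
  have e2 : (s / 3 + 1) ^ 2 = s / 3 * (s / 3) + 2 * (s / 3) + 1 := by ring
  have e3 : (s / 3 + 1) * (s / 3 + 2) = s / 3 * (s / 3) + 3 * (s / 3) + 2 := by ring
  rw [e1] at h1
  unfold V
  rw [e2, e3]
  split_ifs <;> omega

theorem V_inj {N T s s' i : ℕ} (hN : (T + 1) * (T + 3) ≤ N) (hs : s / 3 ≤ T) (hs' : s' / 3 ≤ T)
    (h : V N i s = V N i s') : s = s' := by
  -- the large entries exceed `T`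
  have big : ∀ t ≤ T, T < N + i - (t + 1) ^ 2 ∧ T < N + i - (t + 1) * (t + 2) ∧
      (t + 1) ^ 2 ≤ N ∧ (t + 1) * (t + 2) ≤ N := by
    intro t ht
    have h1 : t * t ≤ T * T := Nat.mul_le_mul ht ht
    have e1 : (T + 1) * (T + 3) = T * T + 4 * T + 3 := by ring
    have e2 : (t + 1) ^ 2 = t * t + 2 * t + 1 := by ring
    have e3 : (t + 1) * (t + 2) = t * t + 3 * t + 2 := by ring
    rw [e1] at hN
    rw [e2, e3]
    omega
  have sq : ∀ t t' : ℕ, (t + 1) ^ 2 = (t' + 1) ^ 2 → t = t' := by
    intro t t' h
    have := Nat.pow_left_injective (n := 2) (by norm_num) h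
    simpa using this
  have ob : ∀ t t' : ℕ, (t + 1) * (t + 2) = (t' + 1) * (t' + 2) → t = t' := by
    intro t t' h
    rcases lt_trichotomy t t' with h1 | h1 | h1
    · nlinarith
    · exact h1
    · nlinarith
  have mix : ∀ t t' : ℕ, (t + 1) ^ 2 ≠ (t' + 1) * (t' + 2) := by
    intro t t' h
    rcases Nat.lt_or_ge t' t with h1 | h1
    · nlinarith
    · nlinarith
  obtain ⟨t, a | a | a⟩ := cases3 s <;> obtain ⟨t', b | b | b⟩ := cases3 s' <;> subst a <;> subst b
  · rw [V0, V0] at h; omega
  · rw [V0, V1] at h; have := big t' (by omega); omega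
  · rw [V0, V2] at h; have := big t' (by omega); omega
  · rw [V1, V0] at h; have := big t (by omega); omega
  · rw [V1, V1] at h
    have b1 := big t (by omega)
    have b2 := big t' (by omega)
    rw [sq t t' (by omega)]
  · rw [V1, V2] at h
    have b1 := big t (by omega)
    have b2 := big t' (by omega)
    exact absurd (by omega) (mix t t')
  · rw [V2, V0] at h; have := big t (by omega); omega
  · rw [V2, V1] at h
    have b1 := big t (by omega)
    have b2 := big t' (by omega)
    exact absurd (by omega) (mix t' t)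
  · rw [V2, V2] at h
    have b1 := big t (by omega)
    have b2 := big t' (by omega)
    rw [ob t t' (by omega)]

/-- The rows, with one large entry in front. -/
def W (N M i : ℕ) : ℕ → ℕ
  | 0 => M - ∑ l ∈ Finset.range i, V N l (2 * l + 3)
  | j + 1 => V N i (j + 2 * i + 3)

theorem exists_deep (n k : ℕ) (hk : (n + 3) ^ 3 ≤ k) :
    ∃ x, IsComposition k x ∧ DepthAtLeast x n := by
  set T := (2 * n + 2) / 3 with hT
  set N := (T + 1) * (T + 3) with hN
  have hT3 : 3 * T ≤ 2 * n + 2 := by omega
  have hN9 : 9 * N ≤ (2 * n + 5) * (2 * n + 11) := by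
    have : 9 * N = (3 * T + 3) * (3 * T + 9) := by rw [hN]; ring
    rw [this]
    exact Nat.mul_le_mul (by omega) (by omega)
  have hNN : (T + 1) * (T + 3) ≤ N := le_rfl
  set R := ∑ j ∈ Finset.range n, V N 0 (j + 3) with hR
  have hR1 : R ≤ n * N := by
    calc R ≤ ∑ j ∈ Finset.range n, N := by
          refine Finset.sum_le_sum fun j hj => ?_
          have := Finset.mem_range.1 hj
          simpa using V_le (N := N) (T := T) (s := j + 3) (i := 0) hNN (by omega)
      _ = n * N := by simp
  set M := k - R with hM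
  have hbudget : n * N + (n * (N + n) + (N + n + 1)) ≤ k := by
    refine le_trans ?_ hk
    have h1 := Nat.mul_le_mul_left (2 * n + 1) hN9
    have e1 : (2 * n + 1) * ((2 * n + 5) * (2 * n + 11)) =
        8 * (n * n * n) + 68 * (n * n) + 142 * n + 55 := by ring
    have e2 : (2 * n + 1) * (9 * N) = 18 * (n * N) + 9 * N := by ring
    have e3 : (n + 3) ^ 3 = n * n * n + 9 * (n * n) + 27 * n + 27 := by ring
    have e4 : n * (N + n) = n * N + n * n := by ring
    rw [e1, e2] at h1
    rw [e3, e4]
    omega
  have hS : ∀ i ≤ n, ∑ l ∈ Finset.range i, V N l (2 * l + 3) ≤ n * (N + n) := by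
    intro i hi
    calc ∑ l ∈ Finset.range i, V N l (2 * l + 3) ≤ ∑ l ∈ Finset.range i, (N + n) := by
          refine Finset.sum_le_sum fun l hl => ?_
          have := Finset.mem_range.1 hl
          have h2 := V_le (N := N) (T := T) (s := 2 * l + 3) (i := l) hNN (by omega)
          omega
      _ = i * (N + n) := by simp
      _ ≤ n * (N + n) := Nat.mul_le_mul_right _ hi
  have hM0 : ∀ i ≤ n, N + n < M - ∑ l ∈ Finset.range i, V N l (2 * l + 3) := by
    intro i hi
    have := hS i hi
    omega
  have hrec : ∀ i j, i + j + 1 ≤ n →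
      ((W N M i (j + 1) : ℤ) - (W N M i j : ℤ)).natAbs = W N M (i + 1) j := by
    intro i j hij
    cases j with
    | zero =>
      have h1 := hM0 i (by omega)
      have h2 := hM0 (i + 1) (by omega)
      have h3 := V_le (N := N) (T := T) (s := 2 * i + 3) (i := i) hNN (by omega)
      simp only [W, Nat.zero_add]
      rw [Finset.sum_range_succ] at h2 ⊢
      omega
    | succ j =>
      simp only [W]
      rw [show j + 1 + 2 * i + 3 = (j + 2 * i + 3) + 1 by ring,
        V_rec (T := T) i hNN (by omega)]
      congr 1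
  have hrow : ∀ i ≤ n, delta^[i] ((List.range (n + 1)).map (W N M 0)) =
      (List.range (n + 1 - i)).map (W N M i) := by
    intro i
    induction i with
    | zero => intro _; simp
    | succ i ih =>
      intro hi
      rw [Function.iterate_succ_apply', ih (by omega), show n + 1 - i = (n + 1 - (i + 1)) + 1 by omega,
        delta_map_range]
      apply List.map_congr_left
      intro j hj
      exact hrec i j (by have := List.mem_range.1 hj; omega)
  refine ⟨(List.range (n + 1)).map (W N M 0), ⟨?_, ?_⟩, ?_⟩
  · intro a ha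
    obtain ⟨j, hj, rfl⟩ := List.mem_map.1 ha
    have hj' := List.mem_range.1 hj
    cases j with
    | zero => have := hM0 0 (by omega); simp only [W]; omega
    | succ j =>
      simp only [W]
      exact V_pos (T := T) hNN (by omega) (by omega)
  · have h1 : ∀ m, ((List.range m).map (W N M 0 ∘ Nat.succ)).sum =
        ∑ j ∈ Finset.range m, V N 0 (j + 3) := by
      intro m
      induction m with
      | zero => simp
      | succ m ih =>
        rw [List.range_succ, List.map_append, List.sum_append, ih, Finset.sum_range_succ]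
        simp [W]
    rw [List.range_succ_eq_map, List.map_cons, List.map_map, List.sum_cons, h1, ← hR]
    simp only [W, Finset.range_zero, Finset.sum_empty]
    omega
  · intro i hi
    have h1 : delta (delta^[i] ((List.range (n + 1)).map (W N M 0))) =
        (List.range (n + 1 - (i + 1))).map (W N M (i + 1)) := by
      have := hrow (i + 1) (by omega)
      rwa [Function.iterate_succ_apply'] at this
    refine ⟨?_, ?_, ?_⟩
    · rw [hrow i (by omega)]
      simp
      omega
    · rw [h1]
      intro a ha
      obtain ⟨j, hj, rfl⟩ := List.mem_map.1 ha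
      have hj' := List.mem_range.1 hj
      cases j with
      | zero => have := hM0 (i + 1) (by omega); simp only [W]; omega
      | succ j =>
        simp only [W]
        exact (V_pos (T := T) hNN (by omega) (by omega)).ne'
    · rw [h1]
      refine List.Nodup.map_on ?_ List.nodup_range
      intro j hj j' hj' h
      rw [List.mem_range] at hj hj'
      have h2 := hM0 (i + 1) (by omega)
      cases j with
      | zero =>
        cases j' with
        | zero => rfl
        | succ j' =>
          simp only [W] at h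
          have h3 := V_le (N := N) (T := T) (s := j' + 2 * (i + 1) + 3) (i := i + 1) hNN (by omega)
          omega
      | succ j =>
        cases j' with
        | zero =>
          simp only [W] at h
          have h3 := V_le (N := N) (T := T) (s := j + 2 * (i + 1) + 3) (i := i + 1) hNN (by omega)
          omega
        | succ j' =>
          simp only [W] at h
          have h3 := V_inj (T := T) hNN (by omega) (by omega) h
          omega

/-- `d*(k) + 4` exceeds the cube root of `k`. -/
theorem result : ∀ k : ℕ, k < (dstar k + 4) ^ 3 := by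
  intro k
  by_contra hcon
  rw [not_lt] at hcon
  have h1 : dstar k + 1 ≤ dstar k :=
    le_csSup (bddAbove k) (exists_deep (dstar k + 1) k (by
      rw [show dstar k + 1 + 3 = dstar k + 4 by ring]; exact hcon))
  omega

end Pool.Agent.Results.MP_3c0d3c_co.CubeRoot
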