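import Mathlib

set_option autoImplicit false

namespace Pool.Agent.Results.MP_3c0d3c_co.UpperBound

/-- `Δ(x)`: the absolute differences of the consecutive entries of `x`, in order. -/
def delta (x : List ℕ) : List ℕ :=
  List.zipWith (fun a b : ℕ => ((b : ℤ) - (a : ℤ)).natAbs) x x.tail

/-- `x` is a composition of `k`. -/
def IsComposition (k : ℕ) (x : List ℕ) : Prop := (∀ a ∈ x, 0 < a) ∧ x.sum = k

/-- The step from `x` to `Δ(x)` is allowed. -/
def Allowed (x : List ℕ) : Prop := 2 ≤ x.length ∧ (∀ a ∈ delta x, a ≠ 0) ∧ (delta x).Nodup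

/-- The unpermuted depth of `x` is at least `t`: the first `t` steps are allowed. -/
def DepthAtLeast (x : List ℕ) (t : ℕ) : Prop := ∀ i < t, Allowed (delta^[i] x)

/-- `d*(k)`, the maximum unpermuted depth of a composition of `k`. -/
noncomputable def dstar (k : ℕ) : ℕ := sSup {t | ∃ x, IsComposition k x ∧ DepthAtLeast x t}

theorem length_delta (x : List ℕ) : (delta x).length = x.length - 1 := by
  simp [delta]

theorem length_iterate_delta (x : List ℕ) (i : ℕ) : (delta^[i] x).length = x.length - i := by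
  induction i with
  | zero => simp
  | succ i ih => rw [Function.iterate_succ_apply', length_delta, ih]; omega

theorem length_le_sum (x : List ℕ) (h : ∀ a ∈ x, 0 < a) : x.length ≤ x.sum := by
  induction x with
  | nil => simp
  | cons a x ih =>
    have h1 := ih fun b hb => h b (List.mem_cons_of_mem _ hb)
    have h2 := h a List.mem_cons_self
    rw [List.length_cons, List.sum_cons]
    omega

theorem bddAbove (k : ℕ) : BddAbove {t | ∃ x, IsComposition k x ∧ DepthAtLeast x t} := by
  refine ⟨k, ?_⟩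
  rintro t ⟨x, ⟨h1, h2⟩, h3⟩
  rcases Nat.eq_zero_or_pos t with h0 | h0
  · omega
  · have h4 := (h3 (t - 1) (by omega)).1
    rw [length_iterate_delta] at h4
    have h5 := length_le_sum x h1
    omega

/-- The difference of two consecutive values. -/
def Df (f : ℕ → ℕ) (j : ℕ) : ℕ := ((f (j + 1) : ℤ) - (f j : ℤ)).natAbs

theorem delta_map_range (f : ℕ → ℕ) (m : ℕ) :
    delta ((List.range (m + 1)).map f) = (List.range m).map (Df f) := by
  apply List.ext_getElem
  · simp [delta]
  · intro i h1 h2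
    simp [delta, Df]

theorem exists_fun (x : List ℕ) : ∃ f : ℕ → ℕ, x = (List.range x.length).map f := by
  refine ⟨fun j => x.getD j 0, ?_⟩
  apply List.ext_getElem
  · simp
  · intro i h1 h2
    simp [h1]

/-- distinct positive values -/
def Good (n : ℕ) (f : ℕ → ℕ) : Prop :=
  (∀ j < n, f j ≠ 0) ∧ Set.InjOn f (Finset.range n : Set ℕ)

theorem good_of (n : ℕ) (f : ℕ → ℕ) (h : ∀ a ∈ (List.range n).map f, a ≠ 0)
    (h' : ((List.range n).map f).Nodup) : Good n f := by
  refine ⟨fun j hj => h _ (List.mem_map_of_mem (List.mem_range.2 hj)), ?_⟩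
  intro a ha b hb hab
  have ha' : a ∈ List.range n := by simpa using ha
  have hb' : b ∈ List.range n := by simpa using hb
  exact List.inj_on_of_nodup_map h' ha' hb' hab

theorem sum_sub {n : ℕ} {f : ℕ → ℕ} (h : Good n f) (H : ℕ) :
    2 * ∑ j ∈ Finset.range n, (H - f j) + H ≤ H * H := by
  induction H with
  | zero => simp
  | succ H ih =>
    have h1 : ∑ j ∈ Finset.range n, (H + 1 - f j) =
        ∑ j ∈ Finset.range n, (H - f j) + ((Finset.range n).filter (fun j => f j ≤ H)).card := by
      rw [Finset.card_filter, ← Finset.sum_add_distrib]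
      refine Finset.sum_congr rfl fun j _ => ?_
      split_ifs <;> omega
    have h2 : ((Finset.range n).filter (fun j => f j ≤ H)).card ≤ (Finset.Icc 1 H).card := by
      apply Finset.card_le_card_of_injOn f
      · intro j hj
        have hj' := Finset.mem_filter.1 (Finset.mem_coe.1 hj)
        have h3 := h.1 j (Finset.mem_range.1 hj'.1)
        have h4 := hj'.2
        simp only [Finset.coe_Icc, Set.mem_Icc]
        omega
      · intro a ha b hb hab
        exact h.2 (Finset.mem_coe.2 (Finset.mem_filter.1 (Finset.mem_coe.1 ha)).1)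
          (Finset.mem_coe.2 (Finset.mem_filter.1 (Finset.mem_coe.1 hb)).1) hab
    rw [Nat.card_Icc] at h2
    have e1 : (H + 1) * (H + 1) = H * H + 2 * H + 1 := by ring
    rw [h1, e1]
    omega

theorem sum_ge {n : ℕ} {f : ℕ → ℕ} (h : Good n f) :
    n * (n + 1) ≤ 2 * ∑ j ∈ Finset.range n, f j := by
  have h1 := sum_sub h (n + 1)
  have h2 : n * (n + 1) ≤ ∑ j ∈ Finset.range n, f j + ∑ j ∈ Finset.range n, (n + 1 - f j) := by
    rw [← Finset.sum_add_distrib]
    calc n * (n + 1) = ∑ _j ∈ Finset.range n, (n + 1) := by simp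
      _ ≤ _ := Finset.sum_le_sum fun j _ => by omega
  nlinarith

theorem sum_over (n : ℕ) (f : ℕ → ℕ) (H : ℕ) :
    ∑ j ∈ Finset.range n, (f j - H) + n * H =
      ∑ j ∈ Finset.range n, f j + ∑ j ∈ Finset.range n, (H - f j) := by
  rw [← Finset.sum_add_distrib]
  calc _ = ∑ j ∈ Finset.range n, ((f j - H) + H) := by
        rw [Finset.sum_add_distrib]; simp
    _ = _ := Finset.sum_congr rfl fun j _ => by omega

/-- the penalty of a value outside of `[L, H]` -/
def phi (L H v : ℕ) : ℕ := (v - H) + (L - v)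

theorem pair_le (f : ℕ → ℕ) (j : ℕ) {L H : ℕ} (hLH : L ≤ H) :
    Df f j ≤ (H - L) + (phi L H (f j) + phi L H (f (j + 1))) := by
  unfold Df phi
  omega

theorem DfDf_le (f : ℕ → ℕ) (j : ℕ) :
    Df (Df f) j ≤ ((f (j + 2) : ℤ) - (f j : ℤ)).natAbs := by
  simp only [Df, show j + 1 + 1 = j + 2 from rfl]
  omega

theorem triple_le (f : ℕ → ℕ) (j : ℕ) {L H : ℕ} (hLH : L ≤ H) :
    Df f j + Df f (j + 1) + Df (Df f) j ≤
      2 * (H - L) + 2 * (phi L H (f j) + phi L H (f (j + 1)) + phi L H (f (j + 2))) := by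
  have h1 := DfDf_le f j
  have h2 : Df f j + Df f (j + 1) + ((f (j + 2) : ℤ) - (f j : ℤ)).natAbs ≤
      2 * (H - L) + 2 * (phi L H (f j) + phi L H (f (j + 1)) + phi L H (f (j + 2))) := by
    simp only [Df, phi, show j + 1 + 1 = j + 2 from rfl]
    omega
  omega

theorem main_ineq (f : ℕ → ℕ) (n : ℕ) {L H : ℕ} (hLH : L ≤ H) :
    2 * ∑ j ∈ Finset.range (n + 1), Df f j + ∑ j ∈ Finset.range n, Df (Df f) j ≤
      2 * ((n + 1) * (H - L)) + 6 * ∑ j ∈ Finset.range (n + 2), phi L H (f j) := by
  have h1 : ∑ j ∈ Finset.range n, (Df f j + Df f (j + 1) + Df (Df f) j) ≤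
      ∑ j ∈ Finset.range n, (2 * (H - L) +
        2 * (phi L H (f j) + phi L H (f (j + 1)) + phi L H (f (j + 2)))) :=
    Finset.sum_le_sum fun j _ => triple_le f j hLH
  have h1' : ∑ j ∈ Finset.range n, (2 * (H - L) +
        2 * (phi L H (f j) + phi L H (f (j + 1)) + phi L H (f (j + 2)))) =
      n * (2 * (H - L)) + 2 * (∑ j ∈ Finset.range n, phi L H (f j) +
        ∑ j ∈ Finset.range n, phi L H (f (j + 1)) +
        ∑ j ∈ Finset.range n, phi L H (f (j + 2))) := by
    rw [Finset.sum_add_distrib, Finset.sum_const, Finset.card_range, smul_eq_mul,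
      ← Finset.sum_add_distrib, ← Finset.sum_add_distrib, ← Finset.mul_sum]
  rw [h1', Finset.sum_add_distrib, Finset.sum_add_distrib] at h1
  have h2 := pair_le f 0 hLH
  have h3 := pair_le f n hLH
  have e1 : ∑ j ∈ Finset.range (n + 1), Df f j = ∑ j ∈ Finset.range n, Df f j + Df f n :=
    Finset.sum_range_succ _ _
  have e2 : ∑ j ∈ Finset.range (n + 1), Df f j = ∑ j ∈ Finset.range n, Df f (j + 1) + Df f 0 :=
    Finset.sum_range_succ' _ _
  have e3 : ∑ j ∈ Finset.range (n + 2), phi L H (f j) =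
      ∑ j ∈ Finset.range n, phi L H (f j) + phi L H (f n) + phi L H (f (n + 1)) := by
    rw [Finset.sum_range_succ, Finset.sum_range_succ]
  have e4 : ∑ j ∈ Finset.range (n + 2), phi L H (f j) =
      ∑ j ∈ Finset.range n, phi L H (f (j + 1)) + phi L H (f (n + 1)) + phi L H (f 0) := by
    rw [Finset.sum_range_succ', Finset.sum_range_succ]
  have e5 : ∑ j ∈ Finset.range (n + 2), phi L H (f j) =
      ∑ j ∈ Finset.range n, phi L H (f (j + 2)) + phi L H (f 1) + phi L H (f 0) := by
    rw [Finset.sum_range_succ', Finset.sum_range_succ']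
  have e6 : 2 * ((n + 1) * (H - L)) = n * (2 * (H - L)) + 2 * (H - L) := by ring
  simp only [Nat.zero_add] at h2
  omega

theorem y_bound (f : ℕ → ℕ) (n : ℕ) (h1 : Good (n + 2) f) (h2 : Good (n + 1) (Df f))
    (h3 : Good n (Df (Df f))) :
    19 * (n + 2) * (n + 2) + 7 * (n + 2) ≤ 36 * ∑ j ∈ Finset.range (n + 2), f j + 78 := by
  obtain ⟨q, r, hr, hm⟩ : ∃ q r : ℕ, r < 3 ∧ n + 2 = 3 * q + r :=
    ⟨(n + 2) / 3, (n + 2) % 3, Nat.mod_lt _ (by norm_num), by omega⟩
  have a1 := sum_ge h2
  have a2 := sum_ge h3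
  have a3 := main_ineq f n (L := q) (H := 2 * q) (by omega)
  have a4 : ∑ j ∈ Finset.range (n + 2), phi q (2 * q) (f j) =
      ∑ j ∈ Finset.range (n + 2), (f j - 2 * q) + ∑ j ∈ Finset.range (n + 2), (q - f j) := by
    simp only [phi]
    rw [Finset.sum_add_distrib]
  have a5 := sum_over (n + 2) f (2 * q)
  have a6 := sum_sub h1 (2 * q)
  have a7 := sum_sub h1 q
  have e : 2 * q - q = q := by omega
  rw [a4, e] at a3
  generalize ∑ j ∈ Finset.range (n + 2), f j = S at *
  generalize ∑ j ∈ Finset.range (n + 1), Df f j = Z at *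
  generalize ∑ j ∈ Finset.range n, Df (Df f) j = W at *
  generalize ∑ j ∈ Finset.range (n + 2), (f j - 2 * q) = A at *
  generalize ∑ j ∈ Finset.range (n + 2), (2 * q - f j) = B at *
  generalize ∑ j ∈ Finset.range (n + 2), (q - f j) = C at *
  clear a4 e h1 h2 h3
  have hr' : r = 0 ∨ r = 1 ∨ r = 2 := by omega
  zify at a1 a2 a3 a5 a6 a7 ⊢
  rcases hr' with hr' | hr' | hr' <;> subst hr'
  · have hn : (n : ℤ) = 3 * q - 2 := by omega
    rw [hn] at a1 a2 a3 a5 ⊢
    nlinarith
  · have hn : (n : ℤ) = 3 * q - 1 := by omega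
    rw [hn] at a1 a2 a3 a5 ⊢
    nlinarith
  · have hn : (n : ℤ) = 3 * q := by omega
    rw [hn] at a1 a2 a3 a5 ⊢
    nlinarith

theorem x_bound (f : ℕ → ℕ) (m : ℕ) (h : ∀ j < m + 1, 0 < f j) :
    ∑ j ∈ Finset.range m, Df f j + 2 * m + 2 ≤ 2 * ∑ j ∈ Finset.range (m + 1), f j := by
  have h1 : ∑ j ∈ Finset.range m, (Df f j + 2) ≤ ∑ j ∈ Finset.range m, (f j + f (j + 1)) := by
    refine Finset.sum_le_sum fun j hj => ?_
    have hj' := Finset.mem_range.1 hj
    have a := h j (by omega)
    have b := h (j + 1) (by omega)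
    unfold Df
    omega
  rw [Finset.sum_add_distrib, Finset.sum_add_distrib, Finset.sum_const, Finset.card_range,
    smul_eq_mul] at h1
  have e1 : ∑ j ∈ Finset.range (m + 1), f j = ∑ j ∈ Finset.range m, f j + f m :=
    Finset.sum_range_succ _ _
  have e2 : ∑ j ∈ Finset.range (m + 1), f j = ∑ j ∈ Finset.range m, f (j + 1) + f 0 :=
    Finset.sum_range_succ' _ _
  have a := h 0 (by omega)
  have b := h m (by omega)
  omega

section

open Finset

theorem tri (T : Finset ℕ) (h : ∀ t ∈ T, 0 < t) : T.card * (T.card + 1) ≤ 2 * ∑ t ∈ T, t := by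
  induction T using Finset.induction_on_max with
  | empty => simp
  | insert a s hs ih =>
    have ha : a ∉ s := fun h' => lt_irrefl _ (hs a h')
    rw [Finset.card_insert_of_notMem ha, Finset.sum_insert ha]
    have h1 := ih (fun t ht => h t (Finset.mem_insert_of_mem ht))
    have h2 : s.card + 1 ≤ a := by
      have h3 : s ⊆ Finset.Ioo 0 a := fun t ht =>
        Finset.mem_Ioo.2 ⟨h t (Finset.mem_insert_of_mem ht), hs t ht⟩
      have h4 := Finset.card_le_card h3
      rw [Nat.card_Ioo] at h4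
      have h5 := h a (Finset.mem_insert_self a s)
      omega
    nlinarith

theorem tri_fun (I : Finset ℕ) (F : ℕ → ℕ) (hF : Set.InjOn F I) (h : ∀ i ∈ I, 0 < F i) :
    I.card * (I.card + 1) ≤ 2 * ∑ i ∈ I, F i := by
  have h1 := tri (I.image F) (fun t ht => by
    obtain ⟨i, hi, rfl⟩ := Finset.mem_image.1 ht
    exact h i hi)
  rwa [Finset.card_image_of_injOn hF, Finset.sum_image hF] at h1

/-- The inequality for a sequence. -/
theorem seq_bound (m : ℕ) (hm : 2 ≤ m) (X : ℕ → ℕ) (hX : ∀ i ≤ m, 0 < X i) (D E : ℕ → ℕ)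
    (hD : ∀ i < m, D i = ((X (i + 1) : ℤ) - (X i : ℤ)).natAbs)
    (hE : ∀ i < m - 1, E i = ((D (i + 1) : ℤ) - (D i : ℤ)).natAbs)
    (hD0 : ∀ i < m, 0 < D i) (hE0 : ∀ i < m - 1, 0 < E i)
    (hDi : Set.InjOn D (range m : Finset ℕ)) (hEi : Set.InjOn E (range (m - 1) : Finset ℕ)) :
    11 * m ^ 2 + 19 * m + 8 ≤ 36 * ∑ i ∈ range (m + 1), X i ∧
      36 * ∑ i ∈ range m, D i + 4 * m ^ 2 + 20 * m + 16 ≤ 72 * ∑ i ∈ range (m + 1), X i := by
  classical
  set U : ℕ → ℕ := fun i => min (X i) (X (i + 1)) with hU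
  set S := ∑ i ∈ range m, U i with hS
  -- the sum
  have h1 : 2 * ∑ i ∈ range (m + 1), X i = ∑ i ∈ range m, D i + 2 * S + X 0 + X m := by
    have e1 : ∑ i ∈ range (m + 1), X i = ∑ i ∈ range m, X i + X m := Finset.sum_range_succ _ _
    have e2 : ∑ i ∈ range (m + 1), X i = ∑ i ∈ range m, X (i + 1) + X 0 := Finset.sum_range_succ' _ _
    have e3 : ∑ i ∈ range m, (X i + X (i + 1)) = ∑ i ∈ range m, (D i + 2 * U i) := by
      refine Finset.sum_congr rfl fun i hi => ?_
      have := hD i (Finset.mem_range.1 hi)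
      simp only [hU]
      omega
    rw [Finset.sum_add_distrib, Finset.sum_add_distrib, ← Finset.mul_sum] at e3
    omega
  have h2 := tri_fun (range m) D hDi (fun i hi => hD0 i (Finset.mem_range.1 hi))
  rw [Finset.card_range] at h2
  -- the three classes of the interior vertices
  set A := (range (m - 1)).filter (fun i => X i < X (i + 1) ∧ X (i + 2) < X (i + 1)) with hA
  set B := (range (m - 1)).filter (fun i => (X i < X (i + 1) ∧ X (i + 1) < X (i + 2)) ∨
    (X (i + 2) < X (i + 1) ∧ X (i + 1) < X i)) with hB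
  set C := (range (m - 1)).filter (fun i => X (i + 1) < X i ∧ X (i + 1) < X (i + 2)) with hC
  have hne : ∀ i < m, X i ≠ X (i + 1) := by
    intro i hi h
    have h3 := hD i hi
    have h4 := hD0 i hi
    omega
  -- A
  have hSA : ∑ i ∈ A, (E i + 2) ≤ S := by
    have d1 : Disjoint A (A.image (· + 1)) := by
      rw [Finset.disjoint_left]
      intro i hi h
      obtain ⟨j, hj, rfl⟩ := Finset.mem_image.1 h
      simp only [hA, Finset.mem_filter] at hi hj
      have h8 : j + 1 + 1 = j + 2 := rfl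
      rw [h8] at hi
      omega
    have d2 : ∑ i ∈ A, U i + ∑ i ∈ A, U (i + 1) ≤ S := by
      have e1 : ∑ i ∈ A.image (· + 1), U i = ∑ i ∈ A, U (i + 1) :=
        Finset.sum_image (fun a _ b _ h => by simpa using h)
      rw [← e1, ← Finset.sum_union d1]
      refine Finset.sum_le_sum_of_subset ?_
      intro i hi
      rcases Finset.mem_union.1 hi with hi | hi
      · simp only [hA, Finset.mem_filter, Finset.mem_range] at hi ⊢
        omega
      · obtain ⟨j, hj, rfl⟩ := Finset.mem_image.1 hi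
        simp only [hA, Finset.mem_filter, Finset.mem_range] at hj ⊢
        omega
    refine le_trans ?_ d2
    rw [← Finset.sum_add_distrib]
    refine Finset.sum_le_sum fun i hi => ?_
    simp only [hA, Finset.mem_filter, Finset.mem_range] at hi
    have h3 := hE i hi.1
    have h4 := hD i (by omega)
    have h5 := hD (i + 1) (by omega)
    have h6 := hX i (by omega)
    have h7 := hX (i + 2) (by omega)
    simp only [hU]
    have h8 : i + 1 + 1 = i + 2 := rfl
    rw [h8] at h5 ⊢
    omega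
  have hA2 : A.card * (A.card + 1) + 4 * A.card ≤ 2 * S := by
    have h3 := tri_fun A E (hEi.mono (by
      intro i hi
      have := Finset.mem_coe.1 hi
      simp only [hA, Finset.mem_filter] at this
      exact Finset.mem_coe.2 this.1)) (fun i hi => by
        simp only [hA, Finset.mem_filter, Finset.mem_range] at hi
        exact hE0 i hi.1)
    rw [Finset.sum_add_distrib, Finset.sum_const, smul_eq_mul] at hSA
    omega
  -- B
  set φ : ℕ → ℕ := fun i => if X i < X (i + 1) then i + 1 else i with hφ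
  set ψ : ℕ → ℕ := fun i => if X i < X (i + 1) then i else i + 1 with hψ
  have hBφ : Set.InjOn φ B := by
    intro i hi j hj h
    have hi' := Finset.mem_coe.1 hi
    have hj' := Finset.mem_coe.1 hj
    simp only [hB, Finset.mem_filter, Finset.mem_range] at hi' hj'
    simp only [hφ] at h
    by_contra hij
    split_ifs at h with c1 c2 c2
    · omega
    · obtain rfl : j = i + 1 := by omega
      have : i + 1 + 1 = i + 2 := rfl
      rw [this] at hj' c2
      omega
    · obtain rfl : i = j + 1 := by omega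
      have : j + 1 + 1 = j + 2 := rfl
      rw [this] at hi' c1
      omega
    · omega
  have hBψ : Set.InjOn ψ B := by
    intro i hi j hj h
    have hi' := Finset.mem_coe.1 hi
    have hj' := Finset.mem_coe.1 hj
    simp only [hB, Finset.mem_filter, Finset.mem_range] at hi' hj'
    simp only [hψ] at h
    by_contra hij
    split_ifs at h with c1 c2 c2
    · omega
    · obtain rfl : i = j + 1 := by omega
      have : j + 1 + 1 = j + 2 := rfl
      rw [this] at hi' c1
      omega
    · obtain rfl : j = i + 1 := by omega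
      have : i + 1 + 1 = i + 2 := rfl
      rw [this] at hj' c2
      omega
    · omega
  have hψm : ∀ i ∈ B, ψ i < m := by
    intro i hi
    simp only [hB, Finset.mem_filter, Finset.mem_range] at hi
    simp only [hψ]
    split_ifs <;> omega
  have hSB : ∑ i ∈ B, (D (ψ i) + 1) ≤ S := by
    have d2 : ∑ i ∈ B, U (φ i) ≤ S := by
      rw [← Finset.sum_image hBφ]
      refine Finset.sum_le_sum_of_subset ?_
      intro i hi
      obtain ⟨j, hj, rfl⟩ := Finset.mem_image.1 hi
      simp only [hB, Finset.mem_filter, Finset.mem_range] at hj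
      simp only [hφ, Finset.mem_range]
      split_ifs <;> omega
    refine le_trans (Finset.sum_le_sum fun i hi => ?_) d2
    simp only [hB, Finset.mem_filter, Finset.mem_range] at hi
    have h4 := hD i (by omega)
    have h5 := hD (i + 1) (by omega)
    have h6 := hX i (by omega)
    have h7 := hX (i + 2) (by omega)
    have h8 : i + 1 + 1 = i + 2 := rfl
    rw [h8] at h5
    simp only [hφ, hψ, hU]
    split_ifs with c1
    · rw [h8]
      omega
    · omega
  have hB2 : B.card * (B.card + 1) + 2 * B.card ≤ 2 * S := by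
    have h3 := tri_fun B (fun i => D (ψ i)) (by
      intro i hi j hj h
      exact hBψ hi hj (hDi (Finset.mem_coe.2 (Finset.mem_range.2 (hψm i (Finset.mem_coe.1 hi))))
        (Finset.mem_coe.2 (Finset.mem_range.2 (hψm j (Finset.mem_coe.1 hj)))) h))
      (fun i hi => hD0 _ (hψm i hi))
    rw [Finset.sum_add_distrib, Finset.sum_const, smul_eq_mul] at hSB
    omega
  -- the count
  have hcount : A.card + B.card + C.card = m - 1 := by
    have e1 : ∀ i ∈ range (m - 1), ((if X i < X (i + 1) ∧ X (i + 2) < X (i + 1) then 1 else 0) +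
        (if (X i < X (i + 1) ∧ X (i + 1) < X (i + 2)) ∨ (X (i + 2) < X (i + 1) ∧ X (i + 1) < X i)
          then 1 else 0) + (if X (i + 1) < X i ∧ X (i + 1) < X (i + 2) then 1 else 0) : ℕ) = 1 := by
      intro i hi
      have h3 := hne i (by have := Finset.mem_range.1 hi; omega)
      have h4 := hne (i + 1) (by have := Finset.mem_range.1 hi; omega)
      have h8 : i + 1 + 1 = i + 2 := rfl
      rw [h8] at h4
      split_ifs <;> omega
    have e2 := Finset.sum_congr (rfl : range (m - 1) = range (m - 1)) e1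
    rw [Finset.sum_add_distrib, Finset.sum_add_distrib, ← Finset.card_filter, ← Finset.card_filter,
      ← Finset.card_filter, Finset.sum_const, Finset.card_range, smul_eq_mul, mul_one] at e2
    exact e2
  have hCA : C.card ≤ A.card + 1 := by
    have e1 : (C.card : ℤ) - A.card = ∑ i ∈ range (m - 1),
        ((if X (i + 1) < X (i + 2) then (1 : ℤ) else 0) - (if X i < X (i + 1) then 1 else 0)) := by
      rw [hC, hA, Finset.card_filter, Finset.card_filter, Nat.cast_sum, Nat.cast_sum,
        ← Finset.sum_sub_distrib]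
      refine Finset.sum_congr rfl fun i hi => ?_
      have h3 := hne i (by have := Finset.mem_range.1 hi; omega)
      have h4 := hne (i + 1) (by have := Finset.mem_range.1 hi; omega)
      have h8 : i + 1 + 1 = i + 2 := rfl
      rw [h8] at h4
      push_cast
      split_ifs <;> omega
    have e2 := Finset.sum_range_sub (fun i => if X i < X (i + 1) then (1 : ℤ) else 0) (m - 1)
    have e3 : ∑ i ∈ range (m - 1),
        ((if X (i + 1) < X (i + 2) then (1 : ℤ) else 0) - (if X i < X (i + 1) then 1 else 0)) =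
        (if X (m - 1) < X (m - 1 + 1) then (1 : ℤ) else 0) - (if X 0 < X (0 + 1) then 1 else 0) := e2
    rw [e3] at e1
    split_ifs at e1 <;> omega
  -- the end
  have hX0 := hX 0 (by omega)
  have hXm := hX m le_rfl
  have hp : m ≤ 2 * A.card + B.card + 2 := by omega
  have h4K : m * (m + 1) + 4 * S + 4 ≤ 4 * ∑ i ∈ range (m + 1), X i := by omega
  obtain ⟨a, ha⟩ : ∃ a, a = A.card := ⟨_, rfl⟩
  obtain ⟨b, hb⟩ : ∃ b, b = B.card := ⟨_, rfl⟩
  rw [← ha] at hA2 hp
  rw [← hb] at hB2 hp
  have h6 : 2 * m ^ 2 + 10 * m ≤ 36 * S + 28 := by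
    obtain ⟨q, rfl⟩ : ∃ q, m = q + 2 := ⟨m - 2, by omega⟩
    have hq : q ≤ 2 * a + b := by omega
    have h7 : q * q ≤ (2 * a + b) * (2 * a + b) := Nat.mul_le_mul hq hq
    zify at *
    nlinarith [sq_nonneg ((a : ℤ) - b)]
  refine ⟨by nlinarith, ?_⟩
  omega

end

theorem sum_map_range (f : ℕ → ℕ) (m : ℕ) :
    ((List.range m).map f).sum = ∑ j ∈ Finset.range m, f j := by
  induction m with
  | zero => simp
  | succ m ih => rw [List.range_succ, List.map_append, List.sum_append, ih,
      Finset.sum_range_succ]; simp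

theorem of_depth {k t : ℕ} (hk0 : 0 < k) {x : List ℕ} (hx : IsComposition k x)
    (ht : DepthAtLeast x t) :
    11 * t ^ 2 + 19 * t + 8 ≤ 36 * k ∧ 23 * t ^ 2 + 27 * t ≤ 72 * k + 62 := by
  rcases Nat.eq_zero_or_pos t with h0 | h0
  · subst h0; omega
  obtain ⟨f, hf⟩ := exists_fun x
  have hlen : t + 1 ≤ x.length := by
    have h4 := (ht (t - 1) (by omega)).1
    rw [length_iterate_delta] at h4
    omega
  obtain ⟨m, hm⟩ : ∃ m, x.length = m + 1 := ⟨x.length - 1, by omega⟩
  rw [hm] at hf
  have hpos : ∀ j < m + 1, 0 < f j := fun j hj =>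
    hx.1 _ (by rw [hf]; exact List.mem_map_of_mem (List.mem_range.2 hj))
  have hk : ∑ j ∈ Finset.range (m + 1), f j = k := by
    rw [← sum_map_range, ← hf]; exact hx.2
  have b0 := x_bound f m hpos
  have d1 : delta x = (List.range m).map (Df f) := by rw [hf, delta_map_range]
  have g1 : Good m (Df f) := by
    have h := ht 0 h0
    simp only [Function.iterate_zero, id_eq] at h
    refine good_of m (Df f) ?_ ?_
    · rw [← d1]; exact h.2.1
    · rw [← d1]; exact h.2.2
  have s1 := sum_ge g1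
  rw [hk] at b0
  by_cases ht2 : t < 2
  · obtain rfl : t = 1 := by omega
    have : 1 * (1 + 1) ≤ m * (m + 1) := Nat.mul_le_mul (by omega) (by omega)
    omega
  obtain ⟨n, hn⟩ : ∃ n, m = n + 2 := ⟨m - 2, by omega⟩
  subst hn
  have d2 : delta^[1] x = (List.range (n + 2)).map (Df f) := by
    rw [Function.iterate_one, d1]
  have d3 : delta^[2] x = (List.range (n + 1)).map (Df (Df f)) := by
    rw [Function.iterate_succ_apply', d2, delta_map_range]
  have d4 : delta^[3] x = (List.range n).map (Df (Df (Df f))) := by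
    rw [Function.iterate_succ_apply', d3, delta_map_range]
  have g2 : Good (n + 1) (Df (Df f)) := by
    have h := ht 1 (by omega)
    unfold Allowed at h
    rw [← Function.iterate_succ_apply' delta 1 x, d3] at h
    exact good_of _ _ h.2.1 h.2.2
  have hs := seq_bound (n + 2) (by omega) f (fun i hi => hpos i (by omega)) (Df f) (Df (Df f))
    (fun i _ => rfl) (fun i _ => rfl) (fun i hi => Nat.pos_of_ne_zero (g1.1 i hi))
    (fun i hi => Nat.pos_of_ne_zero (g2.1 i hi)) g1.2 g2.2
  rw [hk] at hs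
  have htn : t ≤ n + 2 := by omega
  have h5 : t ^ 2 ≤ (n + 2) ^ 2 := Nat.pow_le_pow_left htn 2
  refine ⟨by omega, ?_⟩
  by_cases ht3 : t < 3
  · obtain rfl : t = 2 := by omega
    omega
  have g3 : Good n (Df (Df (Df f))) := by
    have h := ht 2 (by omega)
    unfold Allowed at h
    rw [← Function.iterate_succ_apply' delta 2 x, d4] at h
    exact good_of _ _ h.2.1 h.2.2
  have y1 := y_bound (Df f) n g1 g2 g3
  have h6 : 19 * (n + 2) * (n + 2) = 19 * (n + 2) ^ 2 := by ring
  omega

/-- For every `k ≥ 1` the maximum unpermuted depth `d*(k)` satisfies `11 d*(k)² + 19 d*(k) + 8 ≤ 36 k`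
and `23 d*(k)² + 27 d*(k) ≤ 72 k + 62`; and `d*(k) < n` whenever `0 < k < a(n+1)` and `n ≥ 29`, where
`a(n) = n + 1 + ⌈n(n+1)/4⌉ + ⌊n/2⌋`. -/
theorem result :
    (∀ k : ℕ, 0 < k → 11 * dstar k ^ 2 + 19 * dstar k + 8 ≤ 36 * k) ∧
    (∀ k : ℕ, 0 < k → 23 * dstar k ^ 2 + 27 * dstar k ≤ 72 * k + 62) ∧
    ∀ n k : ℕ, 29 ≤ n → 0 < k → k < (n + 1) + 1 + ((n + 1) * (n + 2) + 3) / 4 + (n + 1) / 2 →
      dstar k < n := by
  have h1 : ∀ k : ℕ, 0 < k → 11 * dstar k ^ 2 + 19 * dstar k + 8 ≤ 36 * k ∧
      23 * dstar k ^ 2 + 27 * dstar k ≤ 72 * k + 62 := by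
    intro k hk
    have hne : {t | ∃ x, IsComposition k x ∧ DepthAtLeast x t}.Nonempty :=
      ⟨0, [k], ⟨by simpa using hk, by simp⟩, fun i hi => absurd hi (Nat.not_lt_zero i)⟩
    obtain ⟨x, hx, ht⟩ := Nat.sSup_mem hne (bddAbove k)
    exact of_depth hk hx ht
  refine ⟨fun k hk => (h1 k hk).1, fun k hk => (h1 k hk).2, fun n k hn hk hkn => ?_⟩
  by_contra hcon
  have h2 := (h1 k hk).2
  have h3 : n ≤ dstar k := by omega
  have h4 : n ^ 2 ≤ dstar k ^ 2 := Nat.pow_le_pow_left h3 2
  have h5 : ((n + 1) * (n + 2) + 3) / 4 * 4 ≤ (n + 1) * (n + 2) + 3 := Nat.div_mul_le_self _ _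
  have h6 : (n + 1) / 2 * 2 ≤ n + 1 := Nat.div_mul_le_self _ _
  have h7 : 29 * n ≤ n ^ 2 := by nlinarith
  have h8 : (n + 1) * (n + 2) = n ^ 2 + 3 * n + 2 := by ring
  rw [h8] at h5 hkn
  omega

end Pool.Agent.Results.MP_3c0d3c_co.UpperBound
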